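import Pool.Agent.Work.MP_542d22_co.S.Final

set_option autoImplicit false

namespace Pool.Agent.Results.MP_542d22_co.ArcVersion

/-- There are `k` pairwise edge-disjoint directed walks from `x` to `y` in the digraph with the
edges `E` (so `k ≤ λ(x, y)`; each walk contains a directed path). -/
def Joined {V E : Type} (tail head : E → V) (k : ℕ) (x y : V) : Prop :=
  ∃ P : Fin k → List E,
    (∀ i, P i ≠ [] ∧ (∀ e ∈ (P i).head?, tail e = x) ∧ (∀ e ∈ (P i).getLast?, head e = y) ∧
      ∀ (j : ℕ) (a b : E), (P i)[j]? = some a → (P i)[j + 1]? = some b → head a = tail b) ∧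
    ∀ i j, i ≠ j → ∀ e ∈ P i, e ∉ P j

/-- **Mader's question, arc version.** Every finite loopless digraph with all out-degrees at least
`r` has an edge `e`, from `x` to `y` say, with `λ(x, y) ≥ r + 1 - μ(x, y)`, where `μ(x, y)` is the
number of edges from `x` to `y`. Without parallel edges `μ(x, y) = 1`, so `λ(x, y) ≥ r`. -/
theorem result :
    ∀ (r : ℕ), 1 ≤ r → ∀ (V E : Type) [Finite V] [Finite E] [Nonempty V] (tail head : E → V),
      (∀ e, tail e ≠ head e) →
      (∀ v : V, r ≤ Nat.card {e : E // tail e = v}) →
      ∃ e : E, Joined tail head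
        (r + 1 - Nat.card {f : E // tail f = tail e ∧ head f = head e}) (tail e) (head e) := by
  intro r hr V E _ _ _ tail head hl hdeg
  classical
  have := Fintype.ofFinite V
  have := Fintype.ofFinite E
  obtain ⟨e, he⟩ := Pool.Agent.Work.MP_542d22_co.S.final tail head r hr hl (fun v => by
    have h := hdeg v
    rw [Nat.card_eq_fintype_card, Fintype.card_subtype] at h
    convert h)
  refine ⟨e, ?_⟩
  have h2 : Nat.card {f : E // tail f = tail e ∧ head f = head e} =
      (Finset.univ.filter fun e' => tail e' = tail e ∧ head e' = head e).card := by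
    rw [Nat.card_eq_fintype_card, Fintype.card_subtype]
  rw [h2]
  convert (show Joined tail head _ (tail e) (head e) from he)

end Pool.Agent.Results.MP_542d22_co.ArcVersion
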