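import Mathlib

set_option autoImplicit false

namespace Pool.Agent.Results.MP_542d22_co.TwoThirds

/-- There are `k` pairwise edge-disjoint directed walks from `x` to `y` in the digraph with the
edges `E` (so `k ≤ λ(x, y)`; each walk contains a directed path). -/
def Joined {V E : Type} (tail head : E → V) (k : ℕ) (x y : V) : Prop :=
  ∃ P : Fin k → List E,
    (∀ i, P i ≠ [] ∧ (∀ e ∈ (P i).head?, tail e = x) ∧ (∀ e ∈ (P i).getLast?, head e = y) ∧
      ∀ (j : ℕ) (a b : E), (P i)[j]? = some a → (P i)[j + 1]? = some b → head a = tail b) ∧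
    ∀ i j, i ≠ j → ∀ e ∈ P i, e ∉ P j

variable {V E : Type} {tail head : E → V}

/-- A walk from inside `W` to outside `W` has an edge leaving `W`. -/
private lemma exists_leaving (W : Set V) : ∀ (l : List E), l ≠ [] →
    (∀ e ∈ l.head?, tail e ∈ W) → (∀ e ∈ l.getLast?, head e ∉ W) →
    (∀ (j : ℕ) (a b : E), l[j]? = some a → l[j + 1]? = some b → head a = tail b) →
    ∃ e ∈ l, tail e ∈ W ∧ head e ∉ W
  | [], h, _, _, _ => absurd rfl h
  | [a], _, h1, h2, _ => ⟨a, by simp, h1 a (by simp), h2 a (by simp)⟩
  | a :: b :: l, _, h1, h2, h3 => by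
    by_cases ha : head a ∈ W
    · obtain ⟨e, he, h⟩ := exists_leaving W (b :: l) (by simp)
        (fun e he => by
          simp only [List.head?_cons, Option.mem_def, Option.some.injEq] at he
          subst he
          rw [← h3 0 a b (by simp) (by simp)]; exact ha)
        (fun e he => h2 e (by simpa [List.getLast?_cons_cons] using he))
        (fun j c d hc hd => h3 (j + 1) c d (by simpa using hc) (by simpa using hd))
      exact ⟨e, List.mem_cons_of_mem _ he, h⟩
    · exact ⟨a, by simp, h1 a (by simp), ha⟩

/-- The number of edge-disjoint walks is at most the size of a cut. -/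
private lemma not_joined [Fintype E] [DecidableEq E] (W : Set V) (F : Finset E) (k : ℕ) {x y : V}
    (hx : x ∈ W) (hy : y ∉ W) (hF : ∀ e, tail e ∈ W → head e ∉ W → e ∈ F) (hk : F.card < k) :
    ¬ Joined tail head k x y := by
  rintro ⟨P, h1, h2⟩
  have h3 : ∀ i, ∃ e ∈ P i, tail e ∈ W ∧ head e ∉ W := fun i => by
    obtain ⟨a, b, c, d⟩ := h1 i
    exact exists_leaving W (P i) a (fun e he => by rw [b e he]; exact hx)
      (fun e he => by rw [c e he]; exact hy) d
  choose f hf using h3
  have hinj : Function.Injective f := fun i j hij => by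
    by_contra hne
    exact h2 i j hne (f i) (hf i).1 (hij ▸ (hf j).1)
  have h4 : Fintype.card (Fin k) ≤ F.card := by
    rw [← Finset.card_univ]
    exact Finset.card_le_card_of_injOn f (fun i _ => hF _ (hf i).2.1 (hf i).2.2) hinj.injOn
  rw [Fintype.card_fin] at h4
  omega

/-- Fewer walks are easier. -/
private lemma Joined.mono {k m : ℕ} (h : k ≤ m) {x y : V} :
    Joined tail head m x y → Joined tail head k x y := by
  rintro ⟨P, h1, h2⟩
  refine ⟨fun i => P (Fin.castLE h i), fun i => h1 _, fun i j hij => h2 _ _ ?_⟩
  intro hh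
  exact hij (Fin.castLE_injective h hh)

/-- The heads of the edges of the example. -/
private def hd (r l t : ℕ) : Option (Fin r × Bool) × Fin r → Option (Fin r × Bool)
  | (none, k) => some (k, false)
  | (some (i, false), k) => if k.1 < l then some (i, true) else none
  | (some (i, true), k) => if k.1 < t then some (i, false) else none

private lemma hd_ne (r l t : ℕ) (e : Option (Fin r × Bool) × Fin r) : e.1 ≠ hd r l t e := by
  rcases e with ⟨_ | ⟨i, _ | _⟩, k⟩
  · simp [hd]
  · simp only [hd]; split_ifs <;> simp
  · simp only [hd]; split_ifs <;> simp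

private lemma main (r l t : ℕ) (h1 : t + 1 ≤ l) (h2 : l ≤ r) (h3 : (r - l) + (r - t) ≤ l)
    (x y : Option (Fin r × Bool)) (hxy : x ≠ y) :
    ¬ Joined (Prod.fst : Option (Fin r × Bool) × Fin r → _) (hd r l t) (l + 1) x y := by
  classical
  rcases y with _ | ⟨i, _ | _⟩
  · obtain ⟨⟨i, b⟩, rfl⟩ : ∃ p, x = some p := Option.ne_none_iff_exists'.mp hxy
    refine not_joined {v | ∃ b, v = some (i, b)}
      ((Finset.univ.image (fun k : Fin (r - l) =>
          ((some (i, false), ⟨l + k.1, by omega⟩) : Option (Fin r × Bool) × Fin r))) ∪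
        (Finset.univ.image (fun k : Fin (r - t) =>
          ((some (i, true), ⟨t + k.1, by omega⟩) : Option (Fin r × Bool) × Fin r))))
      (l + 1) ⟨b, rfl⟩ (by simp) ?_ ?_
    · rintro ⟨v, k⟩ ⟨b, rfl⟩ hk
      rcases b with _ | _
      · have h : ¬ k.1 < l := fun h => hk ⟨true, by simp [hd, h]⟩
        refine Finset.mem_union_left _ (Finset.mem_image.mpr ⟨⟨k.1 - l, by omega⟩, by simp, ?_⟩)
        ext <;> simp
        omega
      · have h : ¬ k.1 < t := fun h => hk ⟨false, by simp [hd, h]⟩
        refine Finset.mem_union_right _ (Finset.mem_image.mpr ⟨⟨k.1 - t, by omega⟩, by simp, ?_⟩)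
        ext <;> simp
        omega
    · refine lt_of_le_of_lt (Finset.card_union_le _ _) ?_
      have ha := Finset.card_image_le (s := Finset.univ) (f := fun k : Fin (r - l) =>
          ((some (i, false), ⟨l + k.1, by omega⟩) : Option (Fin r × Bool) × Fin r))
      have hb := Finset.card_image_le (s := Finset.univ) (f := fun k : Fin (r - t) =>
          ((some (i, true), ⟨t + k.1, by omega⟩) : Option (Fin r × Bool) × Fin r))
      simp only [Finset.card_univ, Fintype.card_fin] at ha hb
      omega
  · refine not_joined {v | v ≠ some (i, false)}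
      (insert ((none, i) : Option (Fin r × Bool) × Fin r) (Finset.univ.image (fun k : Fin t =>
          ((some (i, true), ⟨k.1, by omega⟩) : Option (Fin r × Bool) × Fin r))))
      (l + 1) hxy (by simp) ?_ ?_
    · rintro ⟨v, k⟩ hv hk
      simp only [Set.mem_setOf_eq, not_not] at hk
      rcases v with _ | ⟨j, _ | _⟩
      · simp only [hd, Option.some.injEq, Prod.mk.injEq, and_true] at hk
        subst hk
        exact Finset.mem_insert_self _ _
      · simp only [hd] at hk
        split_ifs at hk
        simp at hk
      · simp only [hd] at hk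
        split_ifs at hk with h
        simp only [Option.some.injEq, Prod.mk.injEq, and_true] at hk
        subst hk
        exact Finset.mem_insert_of_mem (Finset.mem_image.mpr ⟨⟨k.1, h⟩, by simp, rfl⟩)
    · refine lt_of_le_of_lt (Finset.card_insert_le _ _) ?_
      have ha := Finset.card_image_le (s := Finset.univ) (f := fun k : Fin t =>
          ((some (i, true), ⟨k.1, by omega⟩) : Option (Fin r × Bool) × Fin r))
      simp only [Finset.card_univ, Fintype.card_fin] at ha
      omega
  · refine not_joined {v | v ≠ some (i, true)}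
      (Finset.univ.image (fun k : Fin l =>
          ((some (i, false), ⟨k.1, by omega⟩) : Option (Fin r × Bool) × Fin r)))
      (l + 1) hxy (by simp) ?_ ?_
    · rintro ⟨v, k⟩ hv hk
      simp only [Set.mem_setOf_eq, not_not] at hk
      rcases v with _ | ⟨j, _ | _⟩
      · simp [hd] at hk
      · simp only [hd] at hk
        split_ifs at hk with h
        simp only [Option.some.injEq, Prod.mk.injEq, and_true] at hk
        subst hk
        exact Finset.mem_image.mpr ⟨⟨k.1, h⟩, by simp, rfl⟩
      · simp only [hd] at hk
        split_ifs at hk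
        simp at hk
    · have ha := Finset.card_image_le (s := Finset.univ) (f := fun k : Fin l =>
          ((some (i, false), ⟨k.1, by omega⟩) : Option (Fin r × Bool) × Fin r))
      simp only [Finset.card_univ, Fintype.card_fin] at ha
      omega

/-- For every `r ≥ 1` there is a finite loopless digraph (parallel edges allowed) on `2 r + 1`
vertices in which every vertex has out-degree exactly `r` and no two distinct vertices `x, y` have
`⌊2 r / 3⌋ + 2` edge-disjoint paths from `x` to `y`. For `r ≥ 4` this number is at most `r`, so no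
pair of distinct vertices, in particular no edge, has `λ(x, y) ≥ r`. -/
theorem result (r : ℕ) :
    ∃ (V E : Type) (_ : Finite V) (_ : Finite E) (_ : Nonempty V) (tail head : E → V),
      (∀ e, tail e ≠ head e) ∧ (∀ v, Nat.card {e // tail e = v} = r) ∧
      Nat.card V = 2 * r + 1 ∧
      (∀ x y, x ≠ y → ¬ Joined tail head (2 * r / 3 + 2) x y) ∧
      (4 ≤ r → (∀ x y, x ≠ y → ¬ Joined tail head r x y) ∧
        ∀ e, ¬ Joined tail head r (tail e) (head e)) := by
  have key : ∀ x y : Option (Fin r × Bool), x ≠ y → ¬ Joined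
      (Prod.fst : Option (Fin r × Bool) × Fin r → _)
      (hd r (2 * r / 3 + 1) (2 * r - 2 * (2 * r / 3 + 1))) (2 * r / 3 + 1 + 1) x y := by
    intro x y hxy
    rcases Nat.eq_zero_or_pos r with h0 | h0
    · subst h0
      have hx : ∀ z : Option (Fin 0 × Bool), z = none := by
        rintro (_ | ⟨i, _⟩)
        · rfl
        · exact i.elim0
      exact absurd ((hx x).trans (hx y).symm) hxy
    · exact main r _ _ (by omega) (by omega) (by omega) x y hxy
  refine ⟨Option (Fin r × Bool), Option (Fin r × Bool) × Fin r, inferInstance, inferInstance,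
    inferInstance, Prod.fst, hd r (2 * r / 3 + 1) (2 * r - 2 * (2 * r / 3 + 1)),
    hd_ne _ _ _, ?_, ?_, key, fun h4 => ?_⟩
  · intro v
    have e : {e : Option (Fin r × Bool) × Fin r // e.1 = v} ≃ Fin r :=
      ⟨fun e => e.1.2, fun k => ⟨(v, k), rfl⟩, fun e => by
        rcases e with ⟨⟨a, b⟩, rfl⟩; rfl, fun k => rfl⟩
    rw [Nat.card_congr e, Nat.card_eq_fintype_card, Fintype.card_fin]
  · rw [Nat.card_eq_fintype_card, Fintype.card_option, Fintype.card_prod, Fintype.card_fin,
      Fintype.card_bool]
    omega
  · have h : ∀ x y : Option (Fin r × Bool), x ≠ y → ¬ Joined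
      (Prod.fst : Option (Fin r × Bool) × Fin r → _)
      (hd r (2 * r / 3 + 1) (2 * r - 2 * (2 * r / 3 + 1))) r x y :=
      fun x y hxy hj => key x y hxy (Joined.mono (by omega) hj)
    exact ⟨h, fun e => h _ _ (hd_ne _ _ _ e)⟩

end Pool.Agent.Results.MP_542d22_co.TwoThirds
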